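import Mathlib

/-!
# Two involutions (MP_5ee2d0_ag, gluing of semiample classes)

The two conic bundles of a special fibre `V_0 ∪ V_1` give two involutions of the image of the double
surface and two involutions of the line bundle over it. If the first two generate a finite group,
so do the second ones, up to sign: the kernel consists of scalars, so it is central, and a central
element which is inverted by an involution has square one.
-/

namespace Pool.Agent.H57.MN

/-- A group generated by two elements of square one is finite if it has a homomorphism with central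
kernel to a group such that the range is finite. -/
theorem finite_of_involutions {G H : Type*} [Group G] [Group H] (a b : G) (ha : a * a = 1)
    (hb : b * b = 1) (hab : Subgroup.closure {a, b} = ⊤) (φ : G →* H) (hφ : Finite φ.range)
    (hc : ∀ x, φ x = 1 → ∀ y, x * y = y * x) : Finite G := by
  classical
  have ha' : a⁻¹ = a := inv_eq_of_mul_eq_one_left ha
  have hb' : b⁻¹ = b := inv_eq_of_mul_eq_one_left hb
  -- the rotation has finite order
  obtain ⟨n, hn, htn⟩ : ∃ n : ℕ, 0 < n ∧ (a * b) ^ n = 1 := by
    have hf : IsOfFinOrder (⟨φ (a * b), ⟨_, rfl⟩⟩ : φ.range) := isOfFinOrder_of_finite _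
    obtain ⟨k, hk, hk1⟩ := isOfFinOrder_iff_pow_eq_one.1 hf
    have h1 : φ ((a * b) ^ k) = 1 := by
      have := congrArg Subtype.val hk1
      simpa using this
    have h2 := hc _ h1 a
    have hconj : a * (a * b) * a⁻¹ = (a * b)⁻¹ := by
      rw [mul_inv_rev, ha', hb', ← mul_assoc, ha, one_mul]
    have h3 : a * (a * b) ^ k * a⁻¹ = ((a * b) ^ k)⁻¹ := by
      rw [← conj_pow, hconj, inv_pow]
    have h4 : (a * b) ^ k = ((a * b) ^ k)⁻¹ := by
      rw [← h3, ← h2, mul_assoc, mul_inv_cancel, mul_one]
    refine ⟨k + k, by omega, ?_⟩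
    rw [pow_add]
    nth_rewrite 1 [h4]
    exact inv_mul_cancel _
  -- all elements are `t ^ i` or `t ^ i * a`
  let t := a * b
  have hta : ∀ i : ℤ, a * t ^ i = t ^ (-i) * a := by
    intro i
    have hconj : a * t * a⁻¹ = t⁻¹ := by
      change a * (a * b) * a⁻¹ = (a * b)⁻¹
      rw [mul_inv_rev, ha', hb', ← mul_assoc, ha, one_mul]
    have h3 : a * t ^ i * a⁻¹ = t ^ (-i) := by
      rw [← conj_zpow, hconj, inv_zpow, zpow_neg]
    rw [← h3, inv_mul_cancel_right]
  have hb_eq : b = t ^ (-1 : ℤ) * a := by
    rw [zpow_neg, zpow_one]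
    change b = (a * b)⁻¹ * a
    rw [mul_inv_rev, ha', hb', mul_assoc, ha, mul_one]
  have hmem : ∀ g : G, ∃ i : ℤ, g = t ^ i ∨ g = t ^ i * a := by
    intro g
    have hg : g ∈ Subgroup.closure ({a, b} : Set G) := by rw [hab]; trivial
    induction hg using Subgroup.closure_induction with
    | mem y hy =>
      rcases hy with rfl | hy
      · exact ⟨0, Or.inr (by simp)⟩
      · rw [Set.mem_singleton_iff] at hy
        subst hy
        exact ⟨-1, Or.inr hb_eq⟩
    | one => exact ⟨0, Or.inl (by simp)⟩
    | mul y z _ _ hy hz =>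
      obtain ⟨i, hi⟩ := hy
      obtain ⟨j, hj⟩ := hz
      rcases hi with rfl | rfl
      · rcases hj with rfl | rfl
        · exact ⟨i + j, Or.inl (zpow_add t i j).symm⟩
        · exact ⟨i + j, Or.inr (by rw [← mul_assoc, zpow_add])⟩
      · rcases hj with rfl | rfl
        · exact ⟨i + -j, Or.inr (by rw [mul_assoc, hta, ← mul_assoc, zpow_add])⟩
        · exact ⟨i + -j, Or.inl (by
            rw [mul_assoc, ← mul_assoc a, hta, mul_assoc (t ^ (-j)), ha, mul_one, zpow_add])⟩
    | inv y _ hy =>
      obtain ⟨i, hi⟩ := hy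
      rcases hi with rfl | rfl
      · exact ⟨-i, Or.inl (zpow_neg t i).symm⟩
      · exact ⟨i, Or.inr (by rw [mul_inv_rev, ha', ← zpow_neg, hta, neg_neg])⟩
  -- reduce the exponents
  have hn0 : (0 : ℤ) < n := by exact_mod_cast hn
  have hmod : ∀ i : ℤ, ∃ j : Fin n, t ^ i = t ^ (j : ℕ) := by
    intro i
    have h1 := Int.emod_nonneg i hn0.ne'
    have h2 := Int.emod_lt_of_pos i hn0
    refine ⟨⟨(i % n).toNat, by omega⟩, ?_⟩
    have h3 : t ^ (n : ℤ) = 1 := by rw [zpow_natCast]; exact htn
    have h4 : t ^ i = t ^ (i % n) := by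
      conv_lhs => rw [← Int.emod_add_mul_ediv i n]
      rw [zpow_add, zpow_mul, h3, one_zpow, mul_one]
    rw [h4, ← zpow_natCast]
    simp only [Int.toNat_of_nonneg h1]
  have hsurj : Function.Surjective (fun p : Fin n × Bool => t ^ (p.1 : ℕ) * cond p.2 a 1) := by
    intro g
    obtain ⟨i, hi⟩ := hmem g
    obtain ⟨j, hj⟩ := hmod i
    rcases hi with hi | hi
    · exact ⟨(j, false), by simp [hi, hj]⟩
    · exact ⟨(j, true), by simp [hi, hj]⟩
  exact Finite.of_surjective _ hsurj

end Pool.Agent.H57.MN
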