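import Mathlib

/-!
# MP_5ee2d0_ag, Theorems M and N: termination of the steps over one prime divisor of the base

Setting. `XX → Δ` is a projective `Q`-factorial model over the local ring of a prime divisor `b` of
the base, with trivial canonical class and reduced special fibre `X_b = V_0 ∪ .. ∪ V_r`. Either
`r = 0`, `XX` is terminal and the fibre is irreducible with canonical singularities; or `r > 0` and
the fibre is a chain of components glued along surfaces `D` birational to one surface with `K = 0`;
then `XX` is terminal outside the surfaces `D` and locally `u v = t^e` at general points of `D`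
(`e = 1` for dlt terminal models, `r = 1` is the case of two components). `L` is a nef and `H`
an ample class of the generic fibre, `N` a rational class on `XX` extending `L` which is a limit of
movable classes. The minimal model program for `N + d H`, `d` tending to `0` from above, is a sequence
of small `K`-trivial steps; step `j` takes place at the threshold `d j`, and
`p^* N_j = q^* N_(j+1) + E_j`, `p^* H_j = q^* H_(j+1) - E_j / d_j` with `E_j` effective, its support
being the preimage of the locus of the step (negativity lemma).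

This file shows that there is no infinite sequence of such steps. Three kinds of arguments:
* on a surface `D`: the classes `E_j | D` are effective, lie in a fixed lattice and have bounded sum;
* for the prime divisors over a component `V`: multiplicities along divisors of a model are integers;
* steps which are small on every component increase the sum of the cubes `(N | V)^3`, which is the
  constant `L^3`.
-/

namespace Pool.Agent.H57.MN

open Filter Topology

/-- The thresholds of an infinite sequence of steps. -/
structure Thr (d : ℕ → ℝ) : Prop where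
  /-- only positive thresholds occur -/
  pos : ∀ j, 0 < d j
  /-- the program runs with decreasing `d` -/
  anti : Antitone d
  /-- `N + d H` is big for `d > 0`: above a positive `d` there are only finitely many steps
  (Birkar-Cascini-Hacon-McKernan) -/
  lim : Tendsto d atTop (𝓝 0)

/-- Degrees: if `n (j+1) = n j - e j`, `h (j+1) = h j + e j / d j` and `n k + d k h k ≥ 0` then the
sum of the nonnegative numbers `e j` is at most `n 0`. -/
theorem sum_le_of_degrees {d : ℕ → ℝ} (hd : Thr d) (n h e : ℕ → ℝ) (he : ∀ j, 0 ≤ e j)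
    (hn : ∀ j, n (j + 1) = n j - e j) (hh : ∀ j, h (j + 1) = h j + e j / d j)
    (hnef : ∀ k, 0 ≤ n k + d k * h k) (k : ℕ) :
    ∑ j ∈ Finset.range k, e j ≤ n 0 := by
  have h1 : ∀ K, n K = n 0 - ∑ j ∈ Finset.range K, e j := by
    intro K
    induction K with
    | zero => simp
    | succ K ih => rw [hn, ih, Finset.sum_range_succ]; ring
  have h2 : ∀ K, h K = h 0 + ∑ j ∈ Finset.range K, e j / d j := by
    intro K
    induction K with
    | zero => simp
    | succ K ih => rw [hh, ih, Finset.sum_range_succ]; ring
  have h3 : ∀ K, ∑ j ∈ Finset.range K, (1 - d K / d j) * e j ≤ n 0 + d K * h 0 := by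
    intro K
    have := hnef K
    rw [h1, h2] at this
    have h4 : ∑ j ∈ Finset.range K, (1 - d K / d j) * e j =
        ∑ j ∈ Finset.range K, e j - d K * ∑ j ∈ Finset.range K, e j / d j := by
      rw [Finset.mul_sum, ← Finset.sum_sub_distrib]
      refine Finset.sum_congr rfl fun j _ => ?_
      ring
    rw [h4]
    linarith [this, mul_add (d K) (h 0) (∑ j ∈ Finset.range K, e j / d j)]
  have h5 : ∀ K, k ≤ K → ∑ j ∈ Finset.range k, (1 - d K / d j) * e j ≤ n 0 + d K * h 0 := by
    intro K hK
    refine le_trans (Finset.sum_le_sum_of_subset_of_nonneg (Finset.range_mono hK) ?_) (h3 K)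
    intro j hj _
    have hjK : j < K := Finset.mem_range.1 hj
    have : d K / d j ≤ 1 := by
      rw [div_le_one (hd.pos j)]
      exact hd.anti hjK.le
    exact mul_nonneg (by linarith) (he j)
  have h6 : Tendsto (fun K => ∑ j ∈ Finset.range k, (1 - d K / d j) * e j) atTop
      (𝓝 (∑ j ∈ Finset.range k, (1 - 0 / d j) * e j)) := by
    refine tendsto_finsetSum _ fun j _ => ?_
    exact ((tendsto_const_nhds.sub (hd.lim.div_const _)).mul_const _)
  have h7 : Tendsto (fun K => n 0 + d K * h 0) atTop (𝓝 (n 0 + 0 * h 0)) :=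
    tendsto_const_nhds.add (hd.lim.mul_const _)
  have h8 := le_of_tendsto_of_tendsto h6 h7 (eventually_atTop.2 ⟨k, fun K hK => h5 K hK⟩)
  simpa using h8

/-- The restriction of the steps to one double surface `D` of a fibre of type II. All the surfaces
`D^(j)` have Du Val singularities (or are smooth) and the same minimal resolution `D~`. -/
structure DRun (d : ℕ → ℝ) where
  /-- the real Néron-Severi space of `D~` -/
  V : Type
  [grp : AddCommGroup V]
  [mod : Module ℝ V]
  /-- the Néron-Severi lattice of `D~` -/
  NS : AddSubgroup V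
  /-- the degree with respect to a fixed ample divisor -/
  deg : V →ₗ[ℝ] ℝ
  /-- effective classes -/
  Eff : V → Prop
  /-- nef classes -/
  Nef : V → Prop
  deg_int : ∀ x ∈ NS, ∃ z : ℤ, deg x = z
  /-- a nonzero effective divisor has positive degree -/
  deg_eff : ∀ x, Eff x → x ≠ 0 → 0 < deg x
  deg_nef : ∀ x, Nef x → 0 ≤ deg x
  /-- the pull backs to `D~` of the restrictions of `N`, `H` and `E_j` -/
  N : ℕ → V
  H : ℕ → V
  G : ℕ → V
  /-- `p^* N_j = q^* N_(j+1) + E_j` -/
  stepN : ∀ j, N (j + 1) = N j - G j
  /-- `p^* H_j = q^* H_(j+1) - E_j / d_j`: the step is trivial on `N + d_j H` -/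
  stepH : ∀ j, H (j + 1) = H j + (1 / d j) • G j
  /-- `N_j + d_j H_j` is nef on the special fibre of the `j`-th model -/
  nef : ∀ j, Nef (N j + d j • H j)
  eff : ∀ j, Eff (G j)
  /-- the locus of the step meets `D` -/
  meets : ℕ → Prop
  /-- `E_j | D~` is nonzero if the locus meets `D`: `D` is not contained in the locus, since the
  components of the locus are uniruled (Kawamata 1991) and `D` has trivial canonical class; for the
  same reason the pair stays dlt and all `D^(j)` have the same minimal resolution -/
  ne : ∀ j, meets j → G j ≠ 0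
  /-- a bound for the denominators -/
  m : ℕ
  m_pos : 0 < m
  /-- `N` is rational; outside finitely many points of `D` the local class groups of `XX_j` are
  cyclic of order dividing `e`, so `e` times an integral divisor restricts to an integral Weil
  divisor on `D`; the orders of the local class groups of Du Val points on surfaces with minimal
  resolution `D~` are bounded -/
  lattice : ∀ j, m • G j ∈ NS

attribute [instance] DRun.grp DRun.mod

namespace DRun

variable {d : ℕ → ℝ} (R : DRun d)

/-- Only finitely many steps meet the double surface. -/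
theorem finite_meets (hd : Thr d) : {j | R.meets j}.Finite := by
  -- degree of the drops
  have h0 : ∀ j, 0 ≤ R.deg (R.G j) := by
    intro j
    by_cases h : R.G j = 0
    · rw [h]; simp
    · exact (R.deg_eff _ (R.eff j) h).le
  have h1 : ∀ j, R.meets j → 1 ≤ (R.m : ℝ) * R.deg (R.G j) := by
    intro j hj
    have hpos := R.deg_eff _ (R.eff j) (R.ne j hj)
    obtain ⟨z, hz⟩ := R.deg_int _ (R.lattice j)
    rw [map_nsmul, nsmul_eq_mul] at hz
    have hm : (0 : ℝ) < R.m := by exact_mod_cast R.m_pos
    have hz' : (0 : ℝ) < z := by rw [← hz]; exact mul_pos hm hpos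
    have hz'' : (1 : ℤ) ≤ z := by
      have : (0 : ℤ) < z := by exact_mod_cast hz'
      omega
    rw [hz]
    exact_mod_cast hz''
  have h2 : ∀ k, ∑ j ∈ Finset.range k, R.deg (R.G j) ≤ R.deg (R.N 0) := by
    intro k
    refine sum_le_of_degrees hd (fun j => R.deg (R.N j)) (fun j => R.deg (R.H j))
      (fun j => R.deg (R.G j)) h0 ?_ ?_ ?_ k
    · intro j
      simp only [R.stepN, map_sub]
    · intro j
      simp only [R.stepH, map_add, map_smul, smul_eq_mul]
      ring
    · intro j
      have := R.deg_nef _ (R.nef j)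
      simpa [map_add, map_smul] using this
  by_contra hinf
  have hinf : {j | R.meets j}.Infinite := hinf
  obtain ⟨n, hn⟩ := exists_nat_gt ((R.m : ℝ) * R.deg (R.N 0))
  obtain ⟨S, hS, hcard⟩ := hinf.exists_subset_card_eq n
  obtain ⟨k, hk⟩ : ∃ k, S ⊆ Finset.range k := S.exists_nat_subset_range
  have h3 : (n : ℝ) ≤ ∑ j ∈ S, (R.m : ℝ) * R.deg (R.G j) := by
    rw [← hcard]
    have : ∑ j ∈ S, (1 : ℝ) ≤ ∑ j ∈ S, (R.m : ℝ) * R.deg (R.G j) :=
      Finset.sum_le_sum fun j hj => h1 j (hS hj)
    simpa using this
  have h4 : ∑ j ∈ S, (R.m : ℝ) * R.deg (R.G j) ≤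
      ∑ j ∈ Finset.range k, (R.m : ℝ) * R.deg (R.G j) :=
    Finset.sum_le_sum_of_subset_of_nonneg hk fun j _ _ => mul_nonneg (Nat.cast_nonneg _) (h0 j)
  have h5 := mul_le_mul_of_nonneg_left (h2 k) (Nat.cast_nonneg R.m : (0 : ℝ) ≤ R.m)
  rw [Finset.mul_sum] at h5
  linarith

end DRun

/-- A common resolution `W` of two successive models of a component on which the step is small:
`A = p^* N_j`, `B = q^* N_(j+1)`, `a = A^3`, `b = B^3`. The numbers `T x y z` are the intersection
numbers of classes on `W`. -/
structure Flop (a b : ℝ) where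
  /-- the Néron-Severi group of `W`, with real coefficients -/
  W : Type
  sub : W → W → W
  /-- the intersection numbers -/
  T : W → W → W → ℝ
  T_sub : ∀ x y z w, T (sub x y) z w = T x z w - T y z w
  symm₁ : ∀ x y z, T x y z = T y x z
  symm₂ : ∀ x y z, T x y z = T x z y
  A : W
  B : W
  cubeA : T A A A = a
  cubeB : T B B B = b
  /-- `E = A - B` is mapped to curves by `p` and by `q` (projection formula) -/
  AAE : T A A (sub A B) = 0
  BBE : T B B (sub A B) = 0
  /-- `-E` is ample over the base of the step on the normalised graph, and `E` is effective, nonzero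
  and lies over finitely many points of it -/
  EEE : 0 < T (sub A B) (sub A B) (sub A B)

/-- A small step increases the cube. -/
theorem Flop.lt {a b : ℝ} (F : Flop a b) : a < b := by
  have h0 : ∀ x y z w, F.T z (F.sub x y) w = F.T z x w - F.T z y w := by
    intro x y z w
    rw [F.symm₁, F.T_sub, F.symm₁ x, F.symm₁ y]
  have h0' : ∀ x y z w, F.T z w (F.sub x y) = F.T z w x - F.T z w y := by
    intro x y z w
    rw [F.symm₂, h0, F.symm₂ z x, F.symm₂ z y]
  have h1 := F.AAE
  have h2 := F.BBE
  have h3 := F.EEE
  have hA := F.cubeA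
  have hB := F.cubeB
  simp only [F.T_sub, h0, h0'] at h1 h2 h3
  have s1 := F.symm₁ F.A F.B F.A
  have s2 := F.symm₂ F.A F.B F.A
  have s3 := F.symm₁ F.A F.B F.B
  have s4 := F.symm₂ F.B F.A F.B
  linarith

/-- One component `V` of the fibre; all steps are disjoint from the double surfaces on `V`.
`Y` is a `Q`-factorial terminalisation of the first model of `V`; the models of `V` are crepant
birational off the double surfaces, so their prime divisors are prime divisors of `Y`. -/
structure CompRun (d : ℕ → ℝ) where
  /-- the prime divisors of `Y` other than the strict transforms of the double surfaces -/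
  Dv : Type
  /-- the degree with respect to the square of an ample divisor of `Y` -/
  wt : Dv → ℝ
  one_le_wt : ∀ G, 1 ≤ wt G
  /-- `G` is a divisor on the `j`-th model of `V` -/
  on : ℕ → Dv → Prop
  /-- the centre of `G` on the `j`-th model lies in the locus of the step -/
  exc : ℕ → Dv → Prop
  /-- the multiplicity in `G` of the restriction to `V` of a fixed integral divisor in the class `L`
  which does not contain `V` (the components of the fibre are trivial off the double surfaces) -/
  mult : ℕ → Dv → ℝ
  /-- outside the double surfaces the models `XX_j` are smooth in codimension two -/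
  int : ∀ j G, on j G → ∃ z : ℤ, mult j G = z
  /-- `E_j` is effective (negativity lemma) -/
  anti : ∀ j G, mult (j + 1) G ≤ mult j G
  /-- its support is the preimage of the locus -/
  exc_lt : ∀ j G, exc j G → mult (j + 1) G < mult j G
  /-- outside the locus the step is an isomorphism -/
  keep : ∀ j G, ¬ exc j G → (on j G ↔ on (j + 1) G)
  /-- `E_j` has finitely many components -/
  supp : ∀ j, {G | mult (j + 1) G ≠ mult j G}.Finite
  /-- the Picard number of `Y` -/
  rho : ℕ
  /-- the prime divisors of `Y` which are exceptional over the `j`-th model are finitely many and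
  independent in the Néron-Severi group -/
  off_fin : ∀ j, {G | ¬ on j G}.Finite
  off_le : ∀ j, {G | ¬ on j G}.ncard ≤ rho
  /-- the degrees of (the push forwards to `Y` of) `N_j`, `H_j` -/
  n : ℕ → ℝ
  h : ℕ → ℝ
  /-- `p^* N_j = q^* N_(j+1) + E_j` -/
  stepn : ∀ j, n (j + 1) = n j - ∑ᶠ G, (mult j G - mult (j + 1) G) * wt G
  /-- `p^* H_j = q^* H_(j+1) - E_j / d_j` -/
  steph : ∀ j, h (j + 1) = h j + (∑ᶠ G, (mult j G - mult (j + 1) G) * wt G) / d j
  /-- `N_j + d_j H_j` is nef on the `j`-th model, so its push forward to `Y` is pseudoeffective -/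
  nef : ∀ j, 0 ≤ n j + d j * h j
  /-- the locus of the step meets `V` -/
  moves : ℕ → Prop
  /-- the cube of `N_j` on the `j`-th model of `V` -/
  cube : ℕ → ℝ
  cube_eq : ∀ j, ¬ moves j → cube (j + 1) = cube j
  /-- a step which contracts no divisor of the `j`-th and of the `(j+1)`-st model of `V` -/
  small : ∀ j, moves j → (∀ G, exc j G → ¬ on j G ∧ ¬ on (j + 1) G) →
    Nonempty (Flop (cube j) (cube (j + 1)))

namespace CompRun

variable {d : ℕ → ℝ} (R : CompRun d)

theorem antitone_mult (G : R.Dv) : Antitone fun j => R.mult j G :=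
  antitone_nat_of_succ_le fun j => R.anti j G

/-- the degree of `E_j` -/
noncomputable def e (j : ℕ) : ℝ := ∑ᶠ G, (R.mult j G - R.mult (j + 1) G) * R.wt G

theorem term_nonneg (j : ℕ) (G : R.Dv) : 0 ≤ (R.mult j G - R.mult (j + 1) G) * R.wt G :=
  mul_nonneg (sub_nonneg.2 (R.anti j G)) (zero_le_one.trans (R.one_le_wt G))

theorem supp_term (j : ℕ) :
    (Function.support fun G => (R.mult j G - R.mult (j + 1) G) * R.wt G).Finite := by
  refine (R.supp j).subset ?_
  intro G hG hcon
  apply hG
  change (R.mult j G - R.mult (j + 1) G) * R.wt G = 0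
  rw [hcon]
  simp

theorem sum_le_e (j : ℕ) (S : Finset R.Dv) :
    ∑ G ∈ S, (R.mult j G - R.mult (j + 1) G) ≤ R.e j := by
  have h1 : ∑ G ∈ S, (R.mult j G - R.mult (j + 1) G) ≤
      ∑ G ∈ S, (R.mult j G - R.mult (j + 1) G) * R.wt G := by
    refine Finset.sum_le_sum fun G _ => ?_
    exact le_mul_of_one_le_right (sub_nonneg.2 (R.anti j G)) (R.one_le_wt G)
  refine h1.trans ?_
  classical
  have hs := R.supp_term j
  rw [e, finsum_eq_sum_of_support_subset (s := hs.toFinset ∪ S) _ (by
    intro G hG
    simp only [Finset.coe_union, Set.mem_union]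
    left
    exact hs.mem_toFinset.2 hG)]
  exact Finset.sum_le_sum_of_subset_of_nonneg Finset.subset_union_right
    fun G _ _ => R.term_nonneg j G

theorem e_nonneg (j : ℕ) : 0 ≤ R.e j := finsum_nonneg fun G => R.term_nonneg j G

/-- the total drop of the multiplicities is bounded -/
theorem total_drop (hd : Thr d) (S : Finset R.Dv) (k : ℕ) :
    ∑ G ∈ S, (R.mult 0 G - R.mult k G) ≤ R.n 0 := by
  have h1 := sum_le_of_degrees hd R.n R.h R.e R.e_nonneg R.stepn R.steph R.nef k
  refine le_trans ?_ h1
  have h2 : ∀ K, ∑ G ∈ S, (R.mult 0 G - R.mult K G) ≤ ∑ j ∈ Finset.range K, R.e j := by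
    intro K
    induction K with
    | zero => simp
    | succ K ih =>
      rw [Finset.sum_range_succ]
      have h3 := R.sum_le_e K S
      have h4 : ∑ G ∈ S, (R.mult 0 G - R.mult (K + 1) G) =
          ∑ G ∈ S, (R.mult 0 G - R.mult K G) + ∑ G ∈ S, (R.mult K G - R.mult (K + 1) G) := by
        rw [← Finset.sum_add_distrib]
        refine Finset.sum_congr rfl fun G _ => ?_
        ring
      linarith
  exact h2 k

theorem drop_le (hd : Thr d) (G : R.Dv) (k : ℕ) : R.mult 0 G - R.mult k G ≤ R.n 0 := by
  have := R.total_drop hd {G} k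
  simpa using this

/-- a divisor of the `j`-th or of the `(j+1)`-st model lies over the locus of step `j` -/
def Event (j : ℕ) (G : R.Dv) : Prop := R.exc j G ∧ (R.on j G ∨ R.on (j + 1) G)

/-- a bounded antitone sequence of integers is eventually constant -/
theorem eventually_const {f : ℕ → ℤ} (hf : Antitone f) (c : ℤ) (hc : ∀ j, c ≤ f j) :
    ∃ J, ∀ j, J ≤ j → f j = f J := by
  have h1 : ∃ n : ℕ, ∃ J, (f J - c).toNat = n := ⟨_, 0, rfl⟩
  classical
  obtain ⟨J, hJ⟩ := Nat.find_spec h1
  refine ⟨J, fun j hj => le_antisymm (hf hj) ?_⟩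
  by_contra hlt
  push Not at hlt
  have h2 : (f j - c).toNat < Nat.find h1 := by
    rw [← hJ]
    have := hc j
    have := hc J
    omega
  exact Nat.find_min h1 h2 ⟨j, rfl⟩

/-- every prime divisor has finitely many events -/
theorem events_of_divisor (hd : Thr d) (G : R.Dv) : {j | R.Event j G}.Finite := by
  have hb : ∀ j, R.mult 0 G - R.n 0 ≤ R.mult j G := fun j => by
    have := R.drop_le hd G j
    linarith
  have hm := R.antitone_mult G
  obtain ⟨J₁, hJ₁⟩ := eventually_const (f := fun j => ⌊R.mult j G⌋)
    (fun i j hij => Int.floor_le_floor (hm hij)) ⌊R.mult 0 G - R.n 0⌋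
    (fun j => Int.floor_le_floor (hb j))
  obtain ⟨J₂, hJ₂⟩ := eventually_const (f := fun j => ⌈R.mult j G⌉)
    (fun i j hij => Int.ceil_le_ceil (hm hij)) ⌈R.mult 0 G - R.n 0⌉
    (fun j => Int.ceil_le_ceil (hb j))
  refine (Set.finite_lt_nat (max J₁ J₂)).subset ?_
  intro j hj
  by_contra hlt
  have hle : max J₁ J₂ ≤ j := not_lt.1 hlt
  have h1 : J₁ ≤ j := (le_max_left _ _).trans hle
  have h2 : J₂ ≤ j := (le_max_right _ _).trans hle
  have hdrop := R.exc_lt j G hj.1
  rcases hj.2 with hon | hon
  · obtain ⟨z, hz⟩ := R.int j G hon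
    have h3 : ⌊R.mult (j + 1) G⌋ = ⌊R.mult j G⌋ := by
      have a1 := hJ₁ j h1
      have a2 := hJ₁ (j + 1) (h1.trans (Nat.le_succ j))
      exact a2.trans a1.symm
    rw [hz, Int.floor_intCast] at h3
    have h4 := Int.floor_le (R.mult (j + 1) G)
    rw [h3, ← hz] at h4
    linarith
  · obtain ⟨z, hz⟩ := R.int (j + 1) G hon
    have h3 : ⌈R.mult (j + 1) G⌉ = ⌈R.mult j G⌉ := by
      have a1 := hJ₂ j h2
      have a2 := hJ₂ (j + 1) (h2.trans (Nat.le_succ j))
      exact a2.trans a1.symm
    rw [hz, Int.ceil_intCast] at h3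
    have h4 := Int.le_ceil (R.mult j G)
    rw [← h3, ← hz] at h4
    linarith

/-- a set of prime divisors whose finite subsets have bounded cardinality is finite -/
theorem finite_of_card_le {α : Type} {s : Set α} (n : ℕ)
    (h : ∀ S : Finset α, (S : Set α) ⊆ s → S.card ≤ n) : s.Finite := by
  by_contra hinf
  obtain ⟨S, hS, hcard⟩ := (show s.Infinite from hinf).exists_subset_card_eq (n + 1)
  have := h S hS
  omega

/-- the prime divisors which lose at least one -/
theorem finite_dropping (hd : Thr d) :
    {G : R.Dv | ∃ k, 1 ≤ R.mult 0 G - R.mult k G}.Finite := by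
  refine finite_of_card_le ⌊R.n 0⌋₊ fun S hS => ?_
  have hS' : ∀ G ∈ S, ∃ k, 1 ≤ R.mult 0 G - R.mult k G := fun G hG => hS hG
  choose! k hk using hS'
  let K := S.sup k
  have h1 : (S.card : ℝ) ≤ ∑ G ∈ S, (R.mult 0 G - R.mult K G) := by
    have : ∑ G ∈ S, (1 : ℝ) ≤ ∑ G ∈ S, (R.mult 0 G - R.mult K G) := by
      refine Finset.sum_le_sum fun G hG => ?_
      have h2 := hk G hG
      have h3 : R.mult K G ≤ R.mult (k G) G := R.antitone_mult G (Finset.le_sup hG)
      linarith
    simpa using this
  exact Nat.le_floor (h1.trans (R.total_drop hd S K))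

/-- the prime divisors which are contracted for good -/
theorem finite_gone : {G : R.Dv | ∃ k, ∀ j, k ≤ j → ¬ R.on j G}.Finite := by
  refine finite_of_card_le R.rho fun S hS => ?_
  have hS' : ∀ G ∈ S, ∃ k, ∀ j, k ≤ j → ¬ R.on j G := fun G hG => hS hG
  choose! k hk using hS'
  let K := S.sup k
  refine le_trans ?_ (R.off_le K)
  rw [← Set.ncard_coe_finset]
  refine Set.ncard_le_ncard ?_ (R.off_fin K)
  intro G hG
  exact hk G hG K (Finset.le_sup hG)

theorem int_lt {a b : ℝ} (ha : ∃ z : ℤ, a = z) (hb : ∃ z : ℤ, b = z) (h : a < b) :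
    1 ≤ b - a := by
  obtain ⟨z, rfl⟩ := ha
  obtain ⟨w, rfl⟩ := hb
  have h1 : z < w := by exact_mod_cast h
  have h2 : (1 : ℤ) ≤ w - z := by omega
  exact_mod_cast h2

/-- only finitely many prime divisors have an event -/
theorem finite_divisors (hd : Thr d) : {G : R.Dv | ∃ j, R.Event j G}.Finite := by
  refine ((R.finite_dropping hd).union ((R.off_fin 0).union R.finite_gone)).subset ?_
  rintro G ⟨j, hexc, hon⟩
  by_contra hcon
  simp only [Set.mem_union, Set.mem_ofPred_eq, not_or, not_not, not_exists] at hcon
  obtain ⟨h1, h2, h3⟩ := hcon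
  have hm := R.antitone_mult G
  have hdrop := R.exc_lt j G hexc
  rcases hon with hon | hon
  · -- it is contracted and can not come back
    refine h3 (j + 1) fun t ht hont => ?_
    have h4 : R.mult t G < R.mult j G := lt_of_le_of_lt (hm ht) hdrop
    have h5 := int_lt (R.int t G hont) (R.int j G hon) h4
    have h6 : R.mult j G ≤ R.mult 0 G := hm (Nat.zero_le j)
    exact h1 t (by linarith)
  · have h4 : R.mult (j + 1) G < R.mult 0 G := lt_of_lt_of_le hdrop (hm (Nat.zero_le j))
    exact h1 (j + 1) (int_lt (R.int _ G hon) (R.int 0 G h2) h4)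

/-- there are finitely many events -/
theorem finite_events (hd : Thr d) : {j | ∃ G, R.Event j G}.Finite := by
  have h : {j | ∃ G, R.Event j G} ⊆ ⋃ G ∈ {G : R.Dv | ∃ j, R.Event j G}, {j | R.Event j G} := by
    rintro j ⟨G, hG⟩
    simp only [Set.mem_iUnion, Set.mem_ofPred_eq, exists_prop]
    exact ⟨G, ⟨j, hG⟩, hG⟩
  exact ((R.finite_divisors hd).biUnion fun G _ => R.events_of_divisor hd G).subset h

/-- from some step on the cube does not decrease, and it increases if the component is moved -/
theorem cube_mono (hd : Thr d) :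
    ∃ J, ∀ j, J ≤ j → R.cube j ≤ R.cube (j + 1) ∧ (R.moves j → R.cube j < R.cube (j + 1)) := by
  obtain ⟨J, hJ⟩ := (R.finite_events hd).bddAbove
  refine ⟨J + 1, fun j hj => ?_⟩
  have hno : ∀ G, R.exc j G → ¬ R.on j G ∧ ¬ R.on (j + 1) G := by
    intro G hG
    have h1 : ¬ R.Event j G := fun hE => by
      have h2 := hJ (show j ∈ {j | ∃ G, R.Event j G} from ⟨G, hE⟩)
      omega
    constructor
    · intro h
      exact h1 ⟨hG, Or.inl h⟩
    · intro h
      exact h1 ⟨hG, Or.inr h⟩
  have hlt : R.moves j → R.cube j < R.cube (j + 1) := fun hm =>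
    (R.small j hm hno).some.lt
  refine ⟨?_, hlt⟩
  by_cases hm : R.moves j
  · exact (hlt hm).le
  · exact (R.cube_eq j hm).ge

end CompRun

/-- An infinite sequence of steps disjoint from the double surfaces. -/
structure Tail (d : ℕ → ℝ) where
  /-- the components of the fibre -/
  I : Type
  [fin : Fintype I]
  comp : I → CompRun d
  /-- the locus of a step is not empty -/
  move : ∀ j, ∃ i, (comp i).moves j
  /-- `Σ (N | V_i)^3 = L^3` -/
  cube : ℝ
  sum_cube : ∀ j, ∑ i, (comp i).cube j = cube

attribute [instance] Tail.fin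

/-- There is no infinite sequence of steps disjoint from the double surfaces; in particular there is
none if the fibre is irreducible. -/
theorem Tail.false {d : ℕ → ℝ} (hd : Thr d) (R : Tail d) : False := by
  have h1 : ∀ i, ∃ J, ∀ j, J ≤ j → (R.comp i).cube j ≤ (R.comp i).cube (j + 1) ∧
      ((R.comp i).moves j → (R.comp i).cube j < (R.comp i).cube (j + 1)) :=
    fun i => (R.comp i).cube_mono hd
  choose J hJ using h1
  let K := Finset.univ.sup J
  have hK : ∀ i, J i ≤ K := fun i => Finset.le_sup (Finset.mem_univ i)
  obtain ⟨i, hi⟩ := R.move K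
  have h2 : ∑ i, (R.comp i).cube K < ∑ i, (R.comp i).cube (K + 1) :=
    Finset.sum_lt_sum (fun i _ => (hJ i K (hK i)).1) ⟨i, Finset.mem_univ i, (hJ i K (hK i)).2 hi⟩
  rw [R.sum_cube, R.sum_cube] at h2
  exact lt_irrefl _ h2

theorem Thr.shift {d : ℕ → ℝ} (hd : Thr d) (k : ℕ) : Thr fun j => d (k + j) where
  pos := fun j => hd.pos _
  anti := fun i j hij => hd.anti (Nat.add_le_add_left hij k)
  lim := by
    have h := (tendsto_add_atTop_iff_nat (f := d) k).2 hd.lim
    refine h.congr fun j => ?_
    rw [add_comm]

/-- An infinite sequence of steps over a fibre which is irreducible (`Z` empty) or of type II. -/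
structure ChainRun where
  d : ℕ → ℝ
  thr : Thr d
  /-- the double surfaces -/
  Z : Type
  [fin : Finite Z]
  onD : Z → DRun d
  /-- if no step after the `k`-th meets a double surface: the sequence from the `k`-th model on -/
  tail : ∀ k, (∀ j, k ≤ j → ∀ z, ¬ (onD z).meets j) → Nonempty (Tail fun j => d (k + j))

attribute [instance] ChainRun.fin

/-- TERMINATION: there is no infinite sequence of steps. -/
theorem ChainRun.false (R : ChainRun) : False := by
  have h1 : {j | ∃ z, (R.onD z).meets j}.Finite := by
    have : {j | ∃ z, (R.onD z).meets j} = ⋃ z, {j | (R.onD z).meets j} := by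
      ext j
      simp
    rw [this]
    exact Set.finite_iUnion fun z => (R.onD z).finite_meets R.thr
  obtain ⟨J, hJ⟩ := h1.bddAbove
  obtain ⟨T⟩ := R.tail (J + 1) (fun j hj z hz => by
    have := hJ (show j ∈ {j | ∃ z, (R.onD z).meets j} from ⟨z, hz⟩)
    omega)
  exact T.false (R.thr.shift (J + 1))

end Pool.Agent.H57.MN
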